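import Mathlib

/-!
# The maximal height of divisors of `X ^ (p q ^ b) - 1`

For odd primes `p < q` the divisor `Φ_p Φ_q Φ_{p q²} Φ_{q³}` of `X ^ (p q³) - 1` has two
coefficients whose difference is `p²`.
-/

set_option autoImplicit false

namespace Pool.Agent.Results.MP_7a0dfe_nt.HeightBound

open Polynomial Finset

/-- The height of an integer polynomial: the largest absolute value of its coefficients. -/
noncomputable def height (f : ℤ[X]) : ℕ := f.support.sup fun k => (f.coeff k).natAbs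

/-- `B n`: the largest height of the divisors of `X ^ n - 1` in `ℤ[X]`. -/
noncomputable def B (n : ℕ) : ℕ := sSup {h | ∃ f : ℤ[X], f ∣ X ^ n - 1 ∧ height f = h}

theorem coeff_le_height (f : ℤ[X]) (k : ℕ) : (f.coeff k).natAbs ≤ height f := by
  by_cases h : f.coeff k = 0
  · rw [h]; simp
  · exact Finset.le_sup (f := fun k => (f.coeff k).natAbs) (mem_support_iff.2 h)

theorem finite_units : Finite (ℤ[X])ˣ := by
  have h : Function.Surjective (Units.map ((C : ℤ →+* ℤ[X]) : ℤ →* ℤ[X])) := by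
    intro u
    obtain ⟨r, hr, hu⟩ := Polynomial.isUnit_iff.1 u.isUnit
    obtain ⟨v, rfl⟩ := hr
    exact ⟨v, Units.ext hu⟩
  exact Finite.of_surjective _ h

theorem bdd (n : ℕ) (hn : 0 < n) :
    BddAbove {h | ∃ f : ℤ[X], f ∣ X ^ n - 1 ∧ height f = h} := by
  have h1 := finite_units
  have h2 : Fintype (ℤ[X])ˣ := Fintype.ofFinite _
  have hne : (X ^ n - 1 : ℤ[X]) ≠ 0 := (monic_X_pow_sub_C 1 hn.ne').ne_zero
  have h3 : Fintype {x : ℤ[X] // x ∣ X ^ n - 1} :=
    UniqueFactorizationMonoid.fintypeSubtypeDvd _ hne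
  have h4 : {h | ∃ f : ℤ[X], f ∣ X ^ n - 1 ∧ height f = h} =
      Set.range (fun x : {x : ℤ[X] // x ∣ X ^ n - 1} => height x.1) := by
    ext h
    constructor
    · rintro ⟨f, hf, rfl⟩
      exact ⟨⟨f, hf⟩, rfl⟩
    · rintro ⟨⟨f, hf⟩, rfl⟩
      exact ⟨f, hf, rfl⟩
  rw [h4]
  exact (Set.finite_range _).bddAbove

theorem height_le_B {n : ℕ} (hn : 0 < n) {f : ℤ[X]} (hf : f ∣ X ^ n - 1) : height f ≤ B n :=
  le_csSup (bdd n hn) ⟨f, hf, rfl⟩

/-! ### Coefficients -/

/-- `1 + X + ... + X ^ (n - 1)` -/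
noncomputable def geo (n : ℕ) : ℤ[X] := ∑ i ∈ range n, X ^ i

theorem geo_coeff (n k : ℕ) : (geo n).coeff k = if k < n then 1 else 0 := by
  unfold geo
  rw [finsetSum_coeff]
  simp only [coeff_X_pow]
  rw [Finset.sum_ite_eq]
  simp

theorem geo_mul (n : ℕ) : geo n * (X - 1) = X ^ n - 1 := geom_sum_mul X n

theorem geo_natDegree (n : ℕ) (hn : 0 < n) : (geo n).natDegree ≤ n - 1 := by
  rw [natDegree_le_iff_coeff_eq_zero]
  intro k hk
  rw [geo_coeff, if_neg (by omega)]

theorem geo_geo_coeff (p q : ℕ) (hpq : p ≤ q) (hp : 0 < p) :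
    (geo p * geo q).coeff (p - 1) = p := by
  have : geo p * geo q = ∑ i ∈ range p, geo q * X ^ i := by
    rw [geo, Finset.sum_mul]
    exact Finset.sum_congr rfl fun i _ => mul_comm _ _
  rw [this, finsetSum_coeff]
  have h : ∀ i ∈ range p, (geo q * X ^ i).coeff (p - 1) = 1 := by
    intro i hi
    rw [mem_range] at hi
    rw [coeff_mul_X_pow', if_pos (by omega), geo_coeff, if_pos (by omega)]
  rw [Finset.sum_congr rfl h]
  simp

/-- the coefficient of a product with a polynomial in `X ^ M` -/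
theorem coeff_mul_expand (U W : ℤ[X]) (M t s : ℕ) (hM : 0 < M) (hU : U.natDegree < M)
    (hs : s < M) : (U * expand ℤ M W).coeff (M * t + s) = U.coeff s * W.coeff t := by
  conv_lhs => rw [W.as_sum_range_C_mul_X_pow]
  rw [map_sum, Finset.mul_sum, finsetSum_coeff]
  have h : ∀ j, (U * expand ℤ M (C (W.coeff j) * X ^ j)).coeff (M * t + s) =
      if j = t then U.coeff s * W.coeff t else 0 := by
    intro j
    rw [map_mul, expand_C, map_pow, expand_X, ← pow_mul]
    rw [show U * (C (W.coeff j) * X ^ (M * j)) = C (W.coeff j) * (U * X ^ (M * j)) by ring]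
    rw [coeff_C_mul, coeff_mul_X_pow']
    rcases lt_trichotomy j t with h1 | h1 | h1
    · rw [if_neg h1.ne]
      have h2 : M * (j + 1) ≤ M * t := Nat.mul_le_mul_left M h1
      have h3 : M * (j + 1) = M * j + M := by ring
      have h4 : U.coeff (M * t + s - M * j) = 0 := coeff_eq_zero_of_natDegree_lt (by omega)
      rw [if_pos (by omega), h4, mul_zero]
    · subst h1
      rw [if_pos rfl, if_pos (by omega), show M * j + s - M * j = s by omega]
      ring
    · rw [if_neg h1.ne']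
      have h2 : M * (t + 1) ≤ M * j := Nat.mul_le_mul_left M h1
      have h3 : M * (t + 1) = M * t + M := by ring
      rw [if_neg (by omega), mul_zero]
  simp only [h]
  rw [Finset.sum_ite_eq']
  split_ifs with h1
  · rfl
  · rw [mem_range, not_lt] at h1
    have h5 : W.coeff t = 0 := coeff_eq_zero_of_natDegree_lt (by omega)
    rw [h5, mul_zero]

/-! ### The divisor -/

/-- the divisor -/
noncomputable def F (p q : ℕ) : ℤ[X] :=
  cyclotomic p ℤ * cyclotomic q ℤ * cyclotomic (p * q ^ 2) ℤ * cyclotomic (q ^ 3) ℤ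

theorem cyc_prime (p : ℕ) (hp : p.Prime) : cyclotomic p ℤ = geo p := by
  have : Fact p.Prime := ⟨hp⟩
  exact cyclotomic_prime ℤ p

theorem cyc_pow (q n : ℕ) (hq : q.Prime) :
    cyclotomic (q ^ (n + 1)) ℤ = expand ℤ (q ^ n) (geo q) := by
  rw [cyclotomic_prime_pow_eq_geom_sum hq, geo, map_sum]
  apply Finset.sum_congr rfl
  intro i _
  rw [map_pow, expand_X]

/-- `Φ_{p q²} (X ^ (p q) - 1) = (X ^ q - 1) (1 + X ^ (q²) + ... + X ^ (q² (p - 1)))` -/
theorem cyc_mixed (p q : ℕ) (hp : p.Prime) (hq : q.Prime) (hpq : p ≠ q) :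
    cyclotomic (p * q ^ 2) ℤ * (X ^ (p * q) - 1) = (X ^ q - 1) * expand ℤ (q ^ 2) (geo p) := by
  have hnd : ¬ p ∣ q ^ 2 := by
    intro h
    exact hpq ((Nat.prime_dvd_prime_iff_eq hp hq).1 (hp.dvd_of_dvd_pow h))
  have h1 := cyclotomic_expand_eq_cyclotomic_mul hp hnd ℤ
  have h2 : cyclotomic (q ^ 2) ℤ = expand ℤ q (geo q) := by
    have := cyc_pow q 1 hq
    rwa [pow_one] at this
  -- `Φ_{q²} (X ^ q - 1) = X ^ (q²) - 1`
  have h3 : cyclotomic (q ^ 2) ℤ * (X ^ q - 1) = X ^ (q ^ 2) - 1 := by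
    have := congrArg (expand ℤ q) (geo_mul q)
    rw [map_mul, map_sub, map_sub, map_pow, expand_X, map_one, ← pow_mul, ← h2] at this
    rw [this]
    ring
  have h4 : expand ℤ p (cyclotomic (q ^ 2) ℤ) * (X ^ (p * q) - 1) = X ^ (p * q ^ 2) - 1 := by
    have := congrArg (expand ℤ p) h3
    rw [map_mul, map_sub, map_sub, map_pow, map_pow, expand_X, map_one, ← pow_mul,
      ← pow_mul] at this
    exact this
  have h5 : expand ℤ (q ^ 2) (geo p) * (X ^ (q ^ 2) - 1) = X ^ (p * q ^ 2) - 1 := by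
    have := congrArg (expand ℤ (q ^ 2)) (geo_mul p)
    rw [map_mul, map_sub, map_sub, map_pow, expand_X, map_one, ← pow_mul] at this
    rw [this, mul_comm p]
  rw [h1, mul_comm (q ^ 2) p] at h4
  have hne : (X ^ (q ^ 2) - 1 : ℤ[X]) ≠ 0 :=
    (monic_X_pow_sub_C 1 (pow_ne_zero 2 hq.ne_zero)).ne_zero
  apply mul_right_cancel₀ hne
  calc cyclotomic (p * q ^ 2) ℤ * (X ^ (p * q) - 1) * (X ^ q ^ 2 - 1)
      = (cyclotomic (p * q ^ 2) ℤ * cyclotomic (q ^ 2) ℤ * (X ^ (p * q) - 1)) * (X ^ q - 1) := by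
        rw [← h3]; ring
    _ = (X ^ (p * q ^ 2) - 1) * (X ^ q - 1) := by rw [h4]
    _ = (X ^ q - 1) * expand ℤ (q ^ 2) (geo p) * (X ^ q ^ 2 - 1) := by rw [← h5]; ring

theorem F_mul (p q : ℕ) (hp : p.Prime) (hq : q.Prime) (hpq : p ≠ q) :
    F p q * (X ^ (p * q) - 1) =
      (geo p * geo q * (X ^ q - 1)) * expand ℤ (q ^ 2) (geo p * geo q) := by
  have h := cyc_mixed p q hp hq hpq
  have h3 : cyclotomic (q ^ 3) ℤ = expand ℤ (q ^ 2) (geo q) := cyc_pow q 2 hq
  unfold F
  rw [cyc_prime p hp, cyc_prime q hq, h3, map_mul]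
  linear_combination (geo p * geo q * expand ℤ (q ^ 2) (geo q)) * h

theorem F_dvd (p q b : ℕ) (hp : p.Prime) (hq : q.Prime) (hpq : p ≠ q) (hb : 2 < b) :
    F p q ∣ X ^ (p * q ^ b) - 1 := by
  have hpos : 0 < p * q ^ b := Nat.mul_pos hp.pos (pow_pos hq.pos b)
  rw [← prod_cyclotomic_eq_X_pow_sub_one hpos ℤ]
  have hq1 := hq.one_lt
  have hp1 := hp.one_lt
  have e1 : p ≠ q := hpq
  have e2 : p ≠ p * q ^ 2 := by
    intro h
    have : 1 < q ^ 2 := Nat.one_lt_pow (by norm_num) hq1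
    nlinarith
  have e3 : p ≠ q ^ 3 := by
    intro h
    exact hpq ((Nat.prime_dvd_prime_iff_eq hp hq).1 (hp.dvd_of_dvd_pow (dvd_of_eq h)))
  have e4 : q ≠ p * q ^ 2 := by
    intro h
    have : q * 1 < q * (p * q) := Nat.mul_lt_mul_of_pos_left (by nlinarith) hq.pos
    nlinarith
  have e5 : q ≠ q ^ 3 := by
    intro h
    have : q ^ 1 < q ^ 3 := Nat.pow_lt_pow_right hq1 (by norm_num)
    rw [pow_one] at this
    omega
  have e6 : p * q ^ 2 ≠ q ^ 3 := by
    intro h
    have h' : q ^ 2 * p = q ^ 2 * q := by rw [mul_comm, h]; ring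
    exact hpq (Nat.eq_of_mul_eq_mul_left (pow_pos hq.pos 2) h')
  have hF : F p q = ∏ i ∈ ({p, q, p * q ^ 2, q ^ 3} : Finset ℕ), cyclotomic i ℤ := by
    rw [Finset.prod_insert (by simp [e1, e2, e3]), Finset.prod_insert (by simp [e4, e5]),
      Finset.prod_insert (by simp [e6]), Finset.prod_singleton]
    unfold F
    ring
  rw [hF]
  apply Finset.prod_dvd_prod_of_subset
  intro i hi
  rw [Nat.mem_divisors]
  refine ⟨?_, hpos.ne'⟩
  simp only [Finset.mem_insert, Finset.mem_singleton] at hi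
  rcases hi with rfl | rfl | rfl | rfl
  · exact dvd_mul_right _ _
  · exact Dvd.dvd.mul_left (dvd_pow_self _ (by omega)) _
  · exact mul_dvd_mul_left _ (pow_dvd_pow _ (by omega))
  · exact Dvd.dvd.mul_left (pow_dvd_pow _ (by omega)) _

theorem F_height (p q : ℕ) (hp : p.Prime) (hq : q.Prime) (hp2 : 2 < p) (hpq : p < q) :
    p ^ 2 ≤ 2 * height (F p q) := by
  set M := q ^ 2 with hM
  set U := geo p * geo q * (X ^ q - 1) with hU
  set N := M * (p - 1) + (p - 1) with hN
  have hMpos : 0 < M := pow_pos hq.pos 2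
  have hMq : M = q * q := by rw [hM]; ring
  have hqM : 3 * q ≤ M := by rw [hMq]; nlinarith
  have hUdeg : U.natDegree < M := by
    have h1 : U.natDegree ≤ (p - 1) + (q - 1) + q := by
      rw [hU]
      refine natDegree_mul_le_of_le (natDegree_mul_le_of_le (geo_natDegree p hp.pos)
        (geo_natDegree q hq.pos)) ?_
      have : (X ^ q - 1 : ℤ[X]) = X ^ q - C 1 := by simp
      rw [this, natDegree_X_pow_sub_C]
    omega
  have h0 : (F p q * (X ^ (p * q) - 1)).coeff N = -((p : ℤ) * p) := by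
    rw [F_mul p q hp hq hpq.ne, hN, coeff_mul_expand U _ M _ _ hMpos hUdeg (by omega),
      geo_geo_coeff p q hpq.le hp.pos]
    have h2 : U.coeff (p - 1) = -(p : ℤ) := by
      rw [hU, mul_sub, mul_one, coeff_sub, coeff_mul_X_pow', if_neg (by omega),
        geo_geo_coeff p q hpq.le hp.pos]
      ring
    rw [h2]; ring
  have h1 : (F p q * (X ^ (p * q) - 1)).coeff N =
      (if p * q ≤ N then (F p q).coeff (N - p * q) else 0) - (F p q).coeff N := by
    rw [mul_sub, mul_one, coeff_sub, coeff_mul_X_pow']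
  rw [h1] at h0
  have b1 := coeff_le_height (F p q) N
  have b2 := coeff_le_height (F p q) (N - p * q)
  have hsq : ((p ^ 2 : ℕ) : ℤ) = (p : ℤ) * p := by push_cast; ring
  split_ifs at h0
  · omega
  · omega

/-- For all odd primes `p < q` and all `b > 2`, the largest height of a divisor of
`X ^ (p * q ^ b) - 1` is larger than `p`; it is even at least `p ^ 2 / 2`. -/
theorem result (p q b : ℕ) (hp : p.Prime) (hq : q.Prime) (hp2 : Odd p) (_hq2 : Odd q)
    (hpq : p < q) (hb : 2 < b) : p < B (p * q ^ b) ∧ p ^ 2 < 2 * B (p * q ^ b) := by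
  have h3 : 2 < p := by
    rcases hp2 with ⟨k, hk⟩
    have := hp.two_le
    omega
  have h1 := F_height p q hp hq h3 hpq
  have h2 := height_le_B (Nat.mul_pos hp.pos (pow_pos hq.pos b)) (F_dvd p q b hp hq hpq.ne hb)
  have h4 : Odd (p ^ 2) := hp2.pow
  obtain ⟨k, hk⟩ := h4
  have h5 : p ^ 2 < 2 * B (p * q ^ b) := by omega
  refine ⟨?_, h5⟩
  nlinarith

end Pool.Agent.Results.MP_7a0dfe_nt.HeightBound
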